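import Mathlib

set_option autoImplicit false

namespace Pool.Agent.P.MP_d589a8_al

open Equiv Finset

variable {α : Type} [Fintype α] [DecidableEq α]

/-- Even permutations supported in `s`. -/
noncomputable def evenOn (s : Finset α) : Finset (Perm α) := by
  classical
  exact univ.filter (fun τ => τ ∈ alternatingGroup α ∧ τ.support ⊆ s)

lemma mem_evenOn {s : Finset α} {τ : Perm α} :
    τ ∈ evenOn s ↔ τ ∈ alternatingGroup α ∧ τ.support ⊆ s := by
  simp [evenOn]

lemma two_mul_card_evenOn (s : Finset α) (hs : 2 ≤ s.card) :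
    2 * (evenOn s).card = s.card.factorial := by
  have : Nontrivial s := by
    rw [← Fintype.one_lt_card_iff_nontrivial]
    rw [Fintype.card_coe]
    omega
  have h1 : 2 * Fintype.card (alternatingGroup s) = Fintype.card (Perm s) :=
    two_mul_card_alternatingGroup
  rw [Fintype.card_perm, Fintype.card_coe] at h1
  rw [← h1]
  congr 1
  rw [← Finset.card_univ]
  symm
  apply Finset.card_bij (fun k _ => ((alternatingGroup.ofSubtype s k : alternatingGroup α) : Perm α))
  · intro k _
    rw [mem_evenOn]
    exact ⟨(alternatingGroup.ofSubtype s k).2,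
      (alternatingGroup.mem_range_ofSubtype_iff s _).1 ⟨k, rfl⟩⟩
  · intro a _ b _ h
    exact alternatingGroup.ofSubtype_injective (Subtype.ext h)
  · intro τ hτ
    rw [mem_evenOn] at hτ
    obtain ⟨k, hk⟩ := (alternatingGroup.mem_range_ofSubtype_iff s ⟨τ, hτ.1⟩).2 hτ.2
    exact ⟨k, mem_univ _, by rw [hk]⟩

/-- Even permutations having a power of exponent at most the degree with small support. -/
noncomputable def good (α : Type) [Fintype α] [DecidableEq α] (s : ℕ) : Finset (Perm α) := by
  classical
  exact univ.filter (fun x => x ∈ alternatingGroup α ∧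
    ∃ d : ℕ, d ≠ 0 ∧ d ≤ Fintype.card α ∧ (x ^ d).support.card ≤ s)

lemma mem_good {s : ℕ} {x : Perm α} : x ∈ good α s ↔ x ∈ alternatingGroup α ∧
    ∃ d : ℕ, d ≠ 0 ∧ d ≤ Fintype.card α ∧ (x ^ d).support.card ≤ s := by
  simp [good]

lemma disjoint_of_evenOn {c τ : Perm α} (h : τ ∈ evenOn (c.support)ᶜ) : Perm.Disjoint c τ := by
  rw [mem_evenOn] at h
  rw [Perm.disjoint_iff_disjoint_support, Finset.disjoint_left]
  intro a ha hb
  exact (Finset.mem_compl.1 (h.2 hb)) ha

lemma mem_factors {c τ : Perm α} (hc : c.IsCycle) (h : Perm.Disjoint c τ) :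
    c ∈ (c * τ).cycleFactorsFinset := by
  rw [Perm.mem_cycleFactorsFinset_iff]
  refine ⟨hc, fun a ha => ?_⟩
  rcases h a with h1 | h1
  · exact absurd h1 (Perm.mem_support.1 ha)
  · simp [h1]

lemma card_good (t : ℕ) (hodd : Odd (Fintype.card α)) (ht : 4 * t < Fintype.card α)
    (h3 : 3 ≤ Fintype.card α) :
    t * (Fintype.card α).factorial ≤ 2 * Fintype.card α * (good α (2 * t)).card := by
  classical
  set n := Fintype.card α with hn
  let C : ℕ → Finset (Perm α) := fun j => univ.filter (fun c => c.cycleType = {n - 2 * j})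
  let T : Finset (Σ _ : ℕ, Σ _ : Perm α, Perm α) :=
    (Icc 1 t).sigma (fun j => (C j).sigma (fun c => evenOn (c.support)ᶜ))
  have hC : ∀ j c, c ∈ C j → c.IsCycle ∧ c.support.card = n - 2 * j := by
    intro j c hc
    simp only [C, mem_filter, mem_univ, true_and] at hc
    have h1 : c.IsCycle := Perm.card_cycleType_eq_one.1 (by simp [hc])
    refine ⟨h1, ?_⟩
    rw [← Perm.sum_cycleType, hc, Multiset.sum_singleton]
  have hT : (T.card) ≤ (good α (2 * t)).card := by
    apply Finset.card_le_card_of_injOn (fun p => p.2.1 * p.2.2)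
    · rintro ⟨j, c, τ⟩ hp
      simp only [T, coe_sigma, Set.mem_sigma_iff, mem_coe, mem_Icc] at hp
      obtain ⟨hj, hc, hτ⟩ := hp
      obtain ⟨hcy, hcard⟩ := hC j c hc
      have hdis := disjoint_of_evenOn hτ
      rw [mem_evenOn] at hτ
      rw [mem_coe, mem_good]
      dsimp only
      refine ⟨Subgroup.mul_mem _ ?_ hτ.1, n - 2 * j, by omega, by omega, ?_⟩
      · rw [Perm.mem_alternatingGroup, hcy.sign, hcard]
        have : Odd (n - 2 * j) := by
          obtain ⟨k, hk⟩ := hodd
          exact ⟨k - j, by omega⟩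
        rw [this.neg_one_pow]; simp
      · rw [hdis.commute.mul_pow, ← hcard, ← hcy.orderOf, pow_orderOf_eq_one, one_mul]
        refine (Finset.card_le_card ((Perm.support_pow_le τ _).trans hτ.2)).trans ?_
        rw [Finset.card_compl, hcard]
        omega
    · rintro ⟨j, c, τ⟩ hp ⟨j', c', τ'⟩ hp' h
      simp only [T, coe_sigma, Set.mem_sigma_iff, mem_coe, mem_Icc] at hp hp'
      obtain ⟨hj, hc, hτ⟩ := hp
      obtain ⟨hj', hc', hτ'⟩ := hp'
      obtain ⟨hcy, hcard⟩ := hC j c hc
      obtain ⟨hcy', hcard'⟩ := hC j' c' hc'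
      simp only at h
      have hex : ∃ a, a ∈ c.support ∧ a ∈ c'.support := by
        by_contra hne
        push Not at hne
        have hd : Disjoint c.support c'.support := Finset.disjoint_left.2 hne
        have := Finset.card_le_univ (c.support ∪ c'.support)
        rw [Finset.card_union_of_disjoint hd] at this
        omega
      obtain ⟨a, ha, ha'⟩ := hex
      have e1 := Perm.cycle_is_cycleOf ha (mem_factors hcy (disjoint_of_evenOn hτ))
      have e2 := Perm.cycle_is_cycleOf ha' (mem_factors hcy' (disjoint_of_evenOn hτ'))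
      have hcc : c = c' := by rw [e1, e2, h]
      subst hcc
      have hττ : τ = τ' := mul_left_cancel h
      have hjj : j = j' := by omega
      subst hττ hjj
      rfl
  have hTc : t * n.factorial ≤ 2 * n * T.card := by
    simp only [T, Finset.card_sigma]
    rw [Finset.mul_sum]
    have : t * n.factorial = ∑ _j ∈ Icc 1 t, n.factorial := by simp
    rw [this]
    apply Finset.sum_le_sum
    intro j hj
    rw [mem_Icc] at hj
    have h1 : 2 * ∑ c ∈ C j, (evenOn (c.support)ᶜ).card = (C j).card * (2 * j).factorial := by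
      rw [Finset.mul_sum, Finset.card_eq_sum_ones (C j), Finset.sum_mul]
      apply Finset.sum_congr rfl
      intro c hc
      obtain ⟨_, hcard⟩ := hC j c hc
      have h2 : ((c.support)ᶜ).card = 2 * j := by
        rw [Finset.card_compl, hcard]; omega
      rw [two_mul_card_evenOn _ (by omega), h2, one_mul]
    have h2 : (C j).card = (n - 2 * j - 1).factorial * n.choose (n - 2 * j) :=
      Perm.card_of_cycleType_singleton (by omega) (by omega)
    have h4 : n.choose (n - 2 * j) * (n - 2 * j).factorial * (2 * j).factorial = n.factorial := by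
      have := Nat.choose_mul_factorial_mul_factorial (n := n) (k := n - 2 * j) (by omega)
      rwa [show n - (n - 2 * j) = 2 * j by omega] at this
    have h5 : (n - 2 * j).factorial = (n - 2 * j) * (n - 2 * j - 1).factorial :=
      (Nat.mul_factorial_pred (by omega)).symm
    rw [mul_comm 2 n, mul_assoc, h1, h2, ← h4, h5]
    have h6 : n - 2 * j ≤ n := Nat.sub_le _ _
    calc n.choose (n - 2 * j) * ((n - 2 * j) * (n - 2 * j - 1).factorial) * (2 * j).factorial
        = (n - 2 * j) * ((n - 2 * j - 1).factorial * n.choose (n - 2 * j) * (2 * j).factorial) := by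
          ring
      _ ≤ _ := Nat.mul_le_mul_right _ h6
  exact hTc.trans (Nat.mul_le_mul_left _ hT)

end Pool.Agent.P.MP_d589a8_al
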