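import Mathlib

set_option autoImplicit false

namespace Pool.Agent.P.MP_d589a8_al

open Equiv Finset

/-- The positive word spelled by `l`, followed by the second generator. -/
def V (l : List (Fin 2)) : FreeGroup (Fin 2) :=
  FreeGroup.mk (l.map (fun a => (a, true)) ++ [(1, true)])

/-- The conjugate of the `d`-th power of the first generator by `V l`. -/
def W (l : List (Fin 2)) (d : ℕ) : FreeGroup (Fin 2) :=
  V l * FreeGroup.of 0 ^ d * (V l)⁻¹

lemma of_pow_eq (d : ℕ) :
    (FreeGroup.of (0 : Fin 2)) ^ d = FreeGroup.mk (List.replicate d (0, true)) := by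
  rw [← FreeGroup.toWord_of_pow, FreeGroup.mk_toWord]

lemma W_eq (l : List (Fin 2)) (d : ℕ) :
    W l d = FreeGroup.mk (((l.map (fun a => (a, true)) ++ [(1, true)]) ++
      List.replicate d (0, true)) ++
      FreeGroup.invRev (l.map (fun a => (a, true)) ++ [(1, true)])) := by
  unfold W V
  rw [of_pow_eq, FreeGroup.inv_mk, FreeGroup.mul_mk, FreeGroup.mul_mk]

lemma isReduced_of_const (L : List (Fin 2 × Bool)) (b : Bool) (h : ∀ a ∈ L, a.2 = b) :
    FreeGroup.IsReduced L := by
  unfold FreeGroup.IsReduced
  rw [List.isChain_iff_forall_rel_of_append_cons_cons]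
  intro a c l₁ l₂ hL _
  rw [h a (by simp [hL]), h c (by simp [hL])]

lemma W_reduced (l : List (Fin 2)) (d : ℕ) (hd : d ≠ 0) :
    FreeGroup.IsReduced (((l.map (fun a => (a, true)) ++ [(1, true)]) ++
      List.replicate d (0, true)) ++
      FreeGroup.invRev (l.map (fun a => (a, true)) ++ [(1, true)])) := by
  unfold FreeGroup.IsReduced
  rw [List.isChain_append]
  refine ⟨isReduced_of_const _ true ?_, isReduced_of_const _ false ?_, ?_⟩
  · intro a ha
    simp only [List.mem_append, List.mem_map, List.mem_singleton, List.mem_replicate] at ha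
    rcases ha with (⟨b, _, rfl⟩ | rfl) | ⟨_, rfl⟩ <;> rfl
  · intro a ha
    simp only [FreeGroup.invRev, List.mem_reverse, List.mem_map, List.mem_append,
      List.mem_singleton] at ha
    obtain ⟨b, hb, rfl⟩ := ha
    rcases hb with ⟨c, _, rfl⟩ | rfl <;> rfl
  · intro x hx y hy
    obtain ⟨e, rfl⟩ := Nat.exists_eq_succ_of_ne_zero hd
    have h1 : x = (0, true) := by
      rw [List.replicate_succ', ← List.append_assoc, List.getLast?_concat] at hx
      simpa using hx.symm
    have h2 : y = (1, false) := by
      simp [FreeGroup.invRev] at hy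
      exact hy.symm
    subst h1 h2
    simp

lemma W_inj {l l' : List (Fin 2)} {d : ℕ} (hd : d ≠ 0) (hl : l.length = l'.length)
    (h : W l d = W l' d) : l = l' := by
  rw [W_eq, W_eq] at h
  have h2 := FreeGroup.reduce.sound h
  rw [(W_reduced l d hd).reduce_eq, (W_reduced l' d hd).reduce_eq] at h2
  simp only [List.append_assoc] at h2
  have h3 := List.append_inj_left h2 (by simp [hl])
  exact List.map_injective_iff.2 (fun a b hab => by simpa using hab) h3

lemma norm_W_le (l : List (Fin 2)) (d : ℕ) : (W l d).norm ≤ 2 * l.length + 2 + d := by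
  rw [W_eq]
  refine FreeGroup.norm_mk_le.trans ?_
  simp
  omega

/-- Pigeonhole: a power of the first generator with small support gives a short relation. -/
lemma exists_rel {α : Type} [Fintype α] [DecidableEq α] (g : Fin 2 → Perm α) (d s L : ℕ)
    (hd : d ≠ 0) (hn : 1 ≤ Fintype.card α) (hs : (g 0 ^ d).support.card ≤ s)
    (hL : Fintype.card α ^ s < 2 ^ L) :
    ∃ w : FreeGroup (Fin 2), w ≠ 1 ∧ w.norm ≤ 4 * L + 4 + 2 * d ∧ FreeGroup.lift g w = 1 := by
  set u := g 0 ^ d with hu
  let F : (Fin L → Fin 2) → (u.support → α) := fun f a => FreeGroup.lift g (V (List.ofFn f)) a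
  have hcard : Fintype.card (u.support → α) < Fintype.card (Fin L → Fin 2) := by
    simp only [Fintype.card_fun, Fintype.card_coe, Fintype.card_fin]
    exact lt_of_le_of_lt (Nat.pow_le_pow_right hn hs) hL
  obtain ⟨f, f', hne, hF⟩ := Fintype.exists_ne_map_eq_of_card_lt F hcard
  refine ⟨W (List.ofFn f) d * (W (List.ofFn f') d)⁻¹, ?_, ?_, ?_⟩
  · intro h
    rw [mul_inv_eq_one] at h
    exact hne (List.ofFn_injective (W_inj hd (by simp) h))
  · refine (FreeGroup.norm_mul_le _ _).trans ?_
    rw [FreeGroup.norm_inv_eq]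
    have h1 := norm_W_le (List.ofFn f) d
    have h2 := norm_W_le (List.ofFn f') d
    simp only [List.length_ofFn] at h1 h2
    omega
  · rw [map_mul, map_inv, mul_inv_eq_one]
    unfold W
    simp only [map_mul, map_inv, map_pow, FreeGroup.lift_apply_of]
    rw [← hu]
    set a := FreeGroup.lift g (V (List.ofFn f)) with ha
    set b := FreeGroup.lift g (V (List.ofFn f')) with hb
    have hdis : Perm.Disjoint (b⁻¹ * a) u := by
      intro x
      by_cases hx : u x = x
      · exact Or.inr hx
      · left
        have := congrFun hF ⟨x, Perm.mem_support.2 hx⟩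
        simp only [F] at this
        rw [← ha, ← hb] at this
        simp [this]
    have hc := hdis.commute.eq
    calc a * u * a⁻¹ = b * ((b⁻¹ * a) * u) * a⁻¹ := by group
      _ = b * (u * (b⁻¹ * a)) * a⁻¹ := by rw [hc]
      _ = b * u * b⁻¹ := by group

end Pool.Agent.P.MP_d589a8_al
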