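import Pool.Agent.P.MP_d589a8_al.Girth
import Pool.Agent.P.MP_d589a8_al.Count

set_option autoImplicit false

namespace Pool.Agent.P.MP_d589a8_al

open Equiv Finset

lemma analytic (c : ℝ) (hc : 0 < c) (K t n A : ℕ) (hK2 : 2 ≤ K) (hK : 16 / c ≤ K)
    (hn : n = 2 * K * t + 1) (hA : 2 * A = n.factorial) (hlog : 16 / c + 4 < Real.log n) :
    ((4 * (2 * t * (Nat.log 2 n + 1)) + 4 + 2 * n : ℕ) : ℝ) < c * Real.log A := by
  have hn1 : (1 : ℝ) ≤ n := by rw [hn]; push_cast; linarith [show (0:ℝ) ≤ 2 * K * t by positivity]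
  have hn0 : (0 : ℝ) < n := by linarith
  have hl2 : (1 : ℝ) / 2 < Real.log 2 := by linarith [Real.log_two_gt_d9]
  have hl2' : Real.log 2 < 1 := by linarith [Real.log_two_lt_d9]
  set l := Real.log n with hl
  have hl0 : 0 ≤ l := Real.log_nonneg hn1
  have h1 : (Nat.log 2 n : ℝ) ≤ 2 * l := by
    have h : 2 ^ Nat.log 2 n ≤ n := Nat.pow_log_le_self 2 (by omega)
    have h' : ((2 : ℝ) ^ Nat.log 2 n) ≤ n := by exact_mod_cast h
    have h'' := Real.log_le_log (by positivity) h'
    rw [Real.log_pow] at h''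
    have : (0 : ℝ) ≤ Nat.log 2 n := by positivity
    nlinarith
  have hfac : (0 : ℝ) < n.factorial := by exact_mod_cast n.factorial_pos
  have h2 : n * l - n ≤ Real.log n.factorial := by
    have h := Real.pow_div_factorial_le_exp (n : ℝ) hn0.le n
    have h' := Real.log_le_log (by positivity) h
    rw [Real.log_div (by positivity) hfac.ne', Real.log_pow, Real.log_exp] at h'
    linarith
  have hA' : (2 : ℝ) * A = n.factorial := by exact_mod_cast hA
  have hA0 : (0 : ℝ) < A := by linarith
  have h3 : Real.log n.factorial = Real.log 2 + Real.log A := by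
    rw [← hA', Real.log_mul (by norm_num) hA0.ne']
  have h4 : n * l - 2 * n ≤ Real.log A := by linarith
  have hK0 : (2 : ℝ) ≤ K := by exact_mod_cast hK2
  have hnt : 2 * (K : ℝ) * t ≤ n := by rw [hn]; push_cast; linarith
  have ht0 : (0 : ℝ) ≤ t := by positivity
  have hcK : 16 ≤ c * K := by
    rw [div_le_iff₀ hc] at hK; linarith
  have h5 : 32 * (t : ℝ) ≤ c * n := by nlinarith
  have h6 : 4 * (t : ℝ) ≤ n := by nlinarith
  have h7 : 16 + 4 * c < c * l := by
    have : c * (16 / c + 4) < c * l := mul_lt_mul_of_pos_left hlog hc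
    rw [mul_add, mul_div_cancel₀ _ hc.ne'] at this
    linarith
  push_cast
  have h8 : (t : ℝ) * (Nat.log 2 n : ℝ) ≤ t * (2 * l) := mul_le_mul_of_nonneg_left h1 ht0
  have h9 : 32 * (t : ℝ) * l ≤ c * n * l := mul_le_mul_of_nonneg_right h5 hl0
  have h10 : (n : ℝ) * (16 + 4 * c) < n * (c * l) := mul_lt_mul_of_pos_left h7 hn0
  have h11 : c * (n * l - 2 * n) ≤ c * Real.log A := mul_le_mul_of_nonneg_left h4 hc.le
  nlinarith

theorem not_log_girth :
    ¬ (∀ m : ℕ, 2 ≤ m → ∃ c : ℝ, 0 < c ∧ ∀ ε : ℝ, 0 < ε → ∃ N : ℕ,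
      ∀ (G : Type) [Group G] [Fintype G], IsSimpleGroup G →
        (∃ a b : G, a * b ≠ b * a) → N ≤ Fintype.card G →
        (1 - ε) * ((Fintype.card G : ℝ) ^ m) ≤
          (Nat.card {g : Fin m → G //
            ∀ w : FreeGroup (Fin m), w ≠ 1 →
              (w.norm : ℝ) < c * Real.log (Fintype.card G) →
                FreeGroup.lift g w ≠ 1} : ℝ)) := by
  classical
  intro h
  obtain ⟨c, hc, h⟩ := h 2 le_rfl
  obtain ⟨K, hK2, hK⟩ : ∃ K : ℕ, 2 ≤ K ∧ 16 / c ≤ K := by
    obtain ⟨K, hK⟩ := exists_nat_ge (16 / c)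
    exact ⟨K + 2, by omega, by push_cast; linarith⟩
  obtain ⟨N, hN⟩ := h (1 / (2 * (2 * K + 1))) (by positivity)
  obtain ⟨t, ht2, htN, hte⟩ : ∃ t : ℕ, 2 ≤ t ∧ 2 * N ≤ t ∧ Real.exp (16 / c + 4) < t := by
    obtain ⟨t, ht⟩ := exists_nat_gt (Real.exp (16 / c + 4))
    exact ⟨t + 2 + 2 * N, by omega, by omega, by push_cast; linarith [show (0:ℝ) ≤ N by positivity]⟩
  set n := 2 * K * t + 1 with hn
  have h4t : 4 * t < n := by nlinarith
  have hcard : Fintype.card (Fin n) = n := Fintype.card_fin n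
  have hnt : Nontrivial (Fin n) := Fin.nontrivial_iff_two_le.2 (by omega)
  set G := alternatingGroup (Fin n) with hG
  have hA : 2 * Fintype.card G = n.factorial := by
    have := two_mul_card_alternatingGroup (α := Fin n)
    rw [Fintype.card_perm, hcard] at this
    convert this
  set A := Fintype.card G with hAdef
  have hsimple : IsSimpleGroup G := alternatingGroup.isSimpleGroup (by simp; omega)
  have hnc : ∃ a b : G, a * b ≠ b * a := by
    by_contra hne
    push Not at hne
    have : IsMulCommutative G := ⟨⟨hne⟩⟩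
    have := alternatingGroup.isMulCommutative_iff_card_le_three.1 this
    simp at this
    omega
  have hNA : N ≤ A := by
    have := Nat.self_le_factorial n
    omega
  have key := hN G hsimple hnc hNA
  have hlog : 16 / c + 4 < Real.log n := by
    rw [Real.lt_log_iff_exp_lt (by positivity)]
    refine hte.trans_le ?_
    exact_mod_cast (by omega : t ≤ n)
  have han := analytic c hc K t n A hK2 hK hn hA hlog
  have hgood := card_good (α := Fin n) t (by rw [hcard]; exact ⟨K * t, by rw [hn]; ring⟩)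
    (by rw [hcard]; exact h4t) (by rw [hcard]; omega)
  rw [hcard] at hgood
  set S := good (Fin n) (2 * t) with hS
  let B : Finset G := univ.filter (fun x => (x : Perm (Fin n)) ∈ S)
  have hB : B.card = S.card := by
    apply Finset.card_bij (fun (x : G) _ => (x : Perm (Fin n)))
    · intro x hx
      simpa [B] using hx
    · intro a _ b _ hab
      exact Subtype.ext hab
    · intro x hx
      exact ⟨⟨x, (mem_good.1 hx).1⟩, by simpa [B] using hx, rfl⟩
  have hle : Nat.card {g : Fin 2 → G //
            ∀ w : FreeGroup (Fin 2), w ≠ 1 →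
              (w.norm : ℝ) < c * Real.log A →
                FreeGroup.lift g w ≠ 1} ≤ (A - B.card) * A := by
    have hcardT : Nat.card ((Bᶜ : Finset G) × G) = (A - B.card) * A := by
      rw [Nat.card_prod, Nat.card_eq_fintype_card, Nat.card_eq_fintype_card, Fintype.card_coe,
        Finset.card_compl]
    rw [← hcardT]
    refine Nat.card_le_card_of_injective (fun g => (⟨g.1 0, ?_⟩, g.1 1)) ?_
    · rw [Finset.mem_compl]
      intro hmem
      have hmem' : ((g.1 0 : G) : Perm (Fin n)) ∈ S := by simpa [B] using hmem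
      obtain ⟨_, d, hd0, hdn, hsupp⟩ := mem_good.1 hmem'
      rw [hcard] at hdn
      obtain ⟨w, hw1, hwn, hw⟩ := exists_rel (fun i => ((g.1 i : G) : Perm (Fin n))) d (2 * t)
        (2 * t * (Nat.log 2 n + 1)) hd0 (by rw [hcard]; omega) hsupp (by
          rw [hcard, mul_comm (2 * t), pow_mul 2 (Nat.log 2 n + 1) (2 * t)]
          exact Nat.pow_lt_pow_left (Nat.lt_pow_succ_log_self (b := 2) (by norm_num) n) (by omega))
      refine g.2 w hw1 (lt_of_le_of_lt ?_ han) ?_
      · exact_mod_cast hwn.trans (by omega)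
      · apply Subtype.ext
        have : G.subtype.comp (FreeGroup.lift g.1) =
            FreeGroup.lift (fun i => ((g.1 i : G) : Perm (Fin n))) := by
          ext i : 1
          simp
        have h2 := DFunLike.congr_fun this w
        rw [hw] at h2
        simpa using h2
    · intro g g' hgg
      simp only [Prod.mk.injEq, Subtype.mk.injEq] at hgg
      apply Subtype.ext
      funext i
      fin_cases i
      · exact hgg.1
      · exact hgg.2
  have hBA : B.card ≤ A := Finset.card_le_univ B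
  have hle' : (1 - 1 / (2 * (2 * (K : ℝ) + 1))) * (A : ℝ) ^ 2 ≤ ((A : ℝ) - B.card) * A := by
    refine key.trans ?_
    rw [← Nat.cast_sub hBA]
    exact_mod_cast hle
  have hA0 : (0 : ℝ) < A := by exact_mod_cast Fintype.card_pos
  have hBK : A ≤ (2 * K + 1) * B.card := by
    rw [← hA, ← hB] at hgood
    have h1 : n ≤ t * (2 * K + 1) := by rw [hn]; nlinarith
    have h2 : t * A ≤ t * ((2 * K + 1) * B.card) := by nlinarith
    exact Nat.le_of_mul_le_mul_left h2 (by omega)
  have hBK' : (A : ℝ) ≤ (2 * K + 1) * B.card := by exact_mod_cast hBK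
  have hKpos : (0 : ℝ) < 2 * K + 1 := by positivity
  have h3 : (1 - 1 / (2 * (2 * (K : ℝ) + 1))) * A ≤ (A : ℝ) - B.card := by
    have : (1 - 1 / (2 * (2 * (K : ℝ) + 1))) * A * A ≤ ((A : ℝ) - B.card) * A := by
      rw [mul_assoc, ← sq]; exact hle'
    exact le_of_mul_le_mul_right this hA0
  have h4 : (B.card : ℝ) ≤ A / (2 * (2 * (K : ℝ) + 1)) := by
    have : (1 - 1 / (2 * (2 * (K : ℝ) + 1))) * A = A - A / (2 * (2 * (K : ℝ) + 1)) := by ring
    linarith
  rw [le_div_iff₀ (by positivity)] at h4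
  nlinarith

end Pool.Agent.P.MP_d589a8_al
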